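import Mathlib

set_option autoImplicit false

namespace Pool.Agent.Results.MP_0955de_an.NoCycle

open Finset

/-- Nonzero lattice points of the circle `x^2 - a x + y^2 + a y = 0`. -/
def A (a : ℝ) : Set (ℤ × ℤ) :=
  {P | (P.1 : ℝ) ^ 2 - a * P.1 + (P.2 : ℝ) ^ 2 + a * P.2 = 0 ∧ P ≠ (0, 0)}

/-- The graph `G(a₁, a₂)`: distinct vertices with a common first or second coordinate. -/
def G (a₁ a₂ : ℝ) : SimpleGraph (A a₁ ∪ A a₂ : Set (ℤ × ℤ)) :=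
  SimpleGraph.fromRel fun P Q => P.1.1 = Q.1.1 ∨ P.1.2 = Q.1.2

lemma vert {a : ℝ} (ha : ∀ n : ℤ, a ≠ n) {P Q : ℤ × ℤ} (hP : P ∈ A a) (hQ : Q ∈ A a)
    (h : P.1 = Q.1) : P = Q := by
  have e : ((P.2 : ℝ) - Q.2) * (P.2 + Q.2 + a) = 0 := by
    have h1 := hP.1
    have h2 := hQ.1
    rw [h] at h1
    linarith
  rcases mul_eq_zero.1 e with g | g
  · exact Prod.ext h (by exact_mod_cast sub_eq_zero.1 g)
  · exact absurd (by push_cast; linarith) (ha (-(P.2 + Q.2)))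

lemma horiz {a : ℝ} (ha : ∀ n : ℤ, a ≠ n) {P Q : ℤ × ℤ} (hP : P ∈ A a) (hQ : Q ∈ A a)
    (h : P.2 = Q.2) : P = Q := by
  have e : ((P.1 : ℝ) - Q.1) * (P.1 + Q.1 - a) = 0 := by
    have h1 := hP.1
    have h2 := hQ.1
    rw [h] at h1
    linarith
  rcases mul_eq_zero.1 e with g | g
  · exact Prod.ext (by exact_mod_cast sub_eq_zero.1 g) h
  · exact absurd (by push_cast; linarith) (ha (P.1 + Q.1))

lemma disj {a b : ℝ} (hab : a ≠ b) {P : ℤ × ℤ} (hP : P ∈ A a) (hQ : P ∈ A b) : False := by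
  have h1 := hP.1
  have h2 := hQ.1
  have e : (a - b) * ((P.1 : ℝ) - P.2) = 0 := by linarith
  have g := (mul_eq_zero.1 e).resolve_left (sub_ne_zero.2 hab)
  have s : (P.1 : ℝ) ^ 2 + (P.2 : ℝ) ^ 2 = 0 := by
    have : a * ((P.1 : ℝ) - P.2) = 0 := by rw [g, mul_zero]
    linarith
  have x : (P.1 : ℝ) = 0 := by nlinarith [sq_nonneg (P.1 : ℝ), sq_nonneg (P.2 : ℝ)]
  have y : (P.2 : ℝ) = 0 := by linarith
  exact hP.2 (Prod.ext (by exact_mod_cast x) (by exact_mod_cast y))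

open Classical in
lemma cancel {a b : ℝ} (hab : a ≠ b) (c : ℤ × ℤ → ℤ)
    (ua : ∀ P ∈ A a, ∀ Q ∈ A a, c P = c Q → P = Q) (ub : ∀ P ∈ A b, ∀ Q ∈ A b, c P = c Q → P = Q)
    (V : Finset (A a ∪ A b : Set (ℤ × ℤ)))
    (h : ∀ P ∈ V, ∃ Q ∈ V, Q ≠ P ∧ c Q.1 = c P.1) (f : ℤ → ℝ) :
    ∑ P ∈ V, (if P.1 ∈ A a then 1 else -1) * f (c P.1) = 0 := by
  choose g g1 g2 g3 using h
  have opp : ∀ P Q : (A a ∪ A b : Set (ℤ × ℤ)), Q ≠ P → c Q.1 = c P.1 →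
      (Q.1 ∈ A a ↔ ¬ P.1 ∈ A a) := by
    intro P Q hne hc
    constructor
    · intro hQ hP
      exact hne (Subtype.ext (ua _ hQ _ hP hc))
    · intro hP
      by_contra hQ
      exact hne (Subtype.ext (ub _ (Q.2.resolve_left hQ) _ (P.2.resolve_left hP) hc))
  refine sum_involution g ?_ (fun P hP _ => g2 P hP) g1 ?_
  · intro P hP
    have := opp P _ (g2 P hP) (g3 P hP)
    rw [g3 P hP]
    by_cases e : P.1 ∈ A a
    · rw [if_pos e, if_neg (fun z => this.1 z e)]; ring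
    · rw [if_neg e, if_pos (this.2 e)]; ring
  · intro P hP
    have o1 := opp P _ (g2 P hP) (g3 P hP)
    have o2 := opp _ _ (g2 _ (g1 P hP)) (g3 _ (g1 P hP))
    have cc := (g3 _ (g1 P hP)).trans (g3 P hP)
    by_contra hne
    have o3 := opp P _ hne cc
    tauto

lemma three {a b : ℝ} (c : ℤ × ℤ → ℤ)
    (ua : ∀ P ∈ A a, ∀ Q ∈ A a, c P = c Q → P = Q) (ub : ∀ P ∈ A b, ∀ Q ∈ A b, c P = c Q → P = Q)
    (P Q R : (A a ∪ A b : Set (ℤ × ℤ))) (h1 : P ≠ Q) (h2 : P ≠ R) (h3 : Q ≠ R)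
    (e1 : c P.1 = c Q.1) (e2 : c P.1 = c R.1) : False := by
  have e3 := e1.symm.trans e2
  rcases P.2 with p | p <;> rcases Q.2 with q | q <;> rcases R.2 with r | r <;>
    first
    | exact h1 (Subtype.ext (ua _ p _ q e1))
    | exact h1 (Subtype.ext (ub _ p _ q e1))
    | exact h2 (Subtype.ext (ua _ p _ r e2))
    | exact h2 (Subtype.ext (ub _ p _ r e2))
    | exact h3 (Subtype.ext (ua _ q _ r e3))
    | exact h3 (Subtype.ext (ub _ q _ r e3))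

theorem result (a₁ a₂ : ℝ) (hne : a₁ ≠ a₂) (h₁ : ∀ n : ℤ, a₁ ≠ n) (h₂ : ∀ n : ℤ, a₂ ≠ n) :
    (G a₁ a₂).IsAcyclic := by
  classical
  intro v c hc
  have v1 : ∀ P ∈ A a₁, ∀ Q ∈ A a₁, P.1 = Q.1 → P = Q := fun P hP Q hQ h => vert h₁ hP hQ h
  have v2 : ∀ P ∈ A a₂, ∀ Q ∈ A a₂, P.1 = Q.1 → P = Q := fun P hP Q hQ h => vert h₂ hP hQ h
  have w1 : ∀ P ∈ A a₁, ∀ Q ∈ A a₁, P.2 = Q.2 → P = Q := fun P hP Q hQ h => horiz h₁ hP hQ h
  have w2 : ∀ P ∈ A a₂, ∀ Q ∈ A a₂, P.2 = Q.2 → P = Q := fun P hP Q hQ h => horiz h₂ hP hQ h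
  have key : ∀ P ∈ c.support.toFinset,
      (∃ Q ∈ c.support.toFinset, Q ≠ P ∧ Q.1.1 = P.1.1) ∧
      (∃ Q ∈ c.support.toFinset, Q ≠ P ∧ Q.1.2 = P.1.2) := by
    intro P hP
    have n2 := hc.ncard_neighborSet_toSubgraph_eq_two (List.mem_toFinset.1 hP)
    obtain ⟨Q, R, hQR, hs⟩ := Set.ncard_eq_two.1 n2
    have nb : ∀ Z ∈ c.toSubgraph.neighborSet P, Z ∈ c.support.toFinset ∧ P ≠ Z ∧
        (P.1.1 = Z.1.1 ∨ P.1.2 = Z.1.2) := by
      intro Z hZ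
      have ad : c.toSubgraph.Adj P Z := hZ
      have := (SimpleGraph.fromRel_adj _ _ _).1 (c.toSubgraph.adj_sub ad)
      refine ⟨List.mem_toFinset.2 ((c.mem_verts_toSubgraph).1 (c.toSubgraph.edge_vert ad.symm)),
        this.1, ?_⟩
      rcases this.2 with (z | z) | (z | z)
      exacts [Or.inl z, Or.inr z, Or.inl z.symm, Or.inr z.symm]
    obtain ⟨q1, q2, q3⟩ := nb Q (by rw [hs]; simp)
    obtain ⟨r1, r2, r3⟩ := nb R (by rw [hs]; simp)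
    rcases q3 with q3 | q3 <;> rcases r3 with r3 | r3
    · exact (three Prod.fst v1 v2 P Q R q2 r2 hQR q3 r3).elim
    · exact ⟨⟨Q, q1, q2.symm, q3.symm⟩, ⟨R, r1, r2.symm, r3.symm⟩⟩
    · exact ⟨⟨R, r1, r2.symm, r3.symm⟩, ⟨Q, q1, q2.symm, q3.symm⟩⟩
    · exact (three Prod.snd w1 w2 P Q R q2 r2 hQR q3 r3).elim
  have s1 := cancel hne Prod.fst v1 v2 _ (fun P hP => (key P hP).1)
    (fun x => (a₁ + a₂) * (x : ℝ) ^ 2 - 2 * a₁ * a₂ * x)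
  have s2 := cancel hne Prod.snd w1 w2 _ (fun P hP => (key P hP).2)
    (fun y => (a₁ + a₂) * (y : ℝ) ^ 2 + 2 * a₁ * a₂ * y)
  have s3 : (a₁ - a₂) * ∑ P ∈ c.support.toFinset, ((P.1.1 : ℝ) ^ 2 + (P.1.2 : ℝ) ^ 2) = 0 := by
    rw [← add_zero (0 : ℝ)]
    nth_rewrite 1 [← s1]
    rw [← s2, ← sum_add_distrib, mul_sum]
    refine sum_congr rfl fun P _ => ?_
    by_cases e : P.1 ∈ A a₁
    · rw [if_pos e]
      linear_combination (-2 * a₂) * e.1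
    · rw [if_neg e]
      linear_combination (2 * a₁) * (P.2.resolve_left e).1
  have s4 := (mul_eq_zero.1 s3).resolve_left (sub_ne_zero.2 hne)
  have s5 := (sum_eq_zero_iff_of_nonneg fun P _ => by positivity).1 s4 v
    (List.mem_toFinset.2 c.start_mem_support)
  have x : (v.1.1 : ℝ) = 0 := by nlinarith [sq_nonneg (v.1.1 : ℝ), sq_nonneg (v.1.2 : ℝ)]
  have y : (v.1.2 : ℝ) = 0 := by nlinarith [sq_nonneg (v.1.1 : ℝ), sq_nonneg (v.1.2 : ℝ)]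
  have z : v.1 = (0, 0) := Prod.ext (by exact_mod_cast x) (by exact_mod_cast y)
  rcases v.2 with h | h <;> exact h.2 z

end Pool.Agent.Results.MP_0955de_an.NoCycle
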